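import Pool.Agent.H906.BD.W.Final

/-! # Class `C` manifolds covered by `D × ℂ^b`: the Kodaira dimension is nonnegative

Let `D ⊆ ℂ^a` be an arbitrary bounded domain and let a group `Δ` act by biholomorphic maps, properly
discontinuously and with compact quotient, on `D × ℂ^b`. If the action is free then
`X = (D × ℂ^b) / Δ` is a compact complex manifold. It contains no rational curve, since such a curve
would lift to `D × ℂ^b`; hence it is not uniruled, and the problem asks to show that `κ(X) ≥ 0` if
`X` is in class `C`.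

We prove this, and more precisely that the canonical bundle of `X` is semiample, if a subgroup of
finite index of `Δ` preserves the splitting of the tangent bundle into `T_D` and the `b` coordinate
lines of `ℂ^b`: on some finite etale cover of `X`, `T_X = E ⊕ L_1 ⊕ ... ⊕ L_b` where the summand `E`
comes from `D` (and need not split).

Only the following consequence of the membership in class `C` is used. Let `π : Y → X` be a
modification with `Y` compact Kähler of dimension `n`, and `ω` a Kähler form on `Y`. Then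
`T = π_* ω` is a closed positive current of bidegree `(1, 1)` on `X`, and `π_* (ω ^ (n-1))` is a
closed positive current of bidegree `(n-1, n-1)`; both have locally integrable coefficients (they do
not charge the analytic subset `S ⊆ X` over which `π` is not an isomorphism), and on the
complement of `S` the first one is a Kähler form and the second one is its power `T ^ (n-1)`, whose
coefficients are the cofactors of the matrix of `T`. No smooth Kähler metric on `X` is assumed, and
`T` need not be compatible with the splitting. Without a current the statement fails (Inoue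
surfaces, the manifolds of Oeljeklaus and Toma: `κ(X) = -∞`, `X` is not uniruled and not in class
`C`).

Main steps: if the image of the group in `Aut D` were not discrete then there would be a
finite-dimensional invariant space of commuting holomorphic vector fields on `D`; the logarithm `u`
of the Carathéodory-type volume of these fields is plurisubharmonic with an additive character and
not pluriharmonic. For smooth Kähler forms this contradicts Stokes' theorem. Here `u` and the
coefficients of `T ^ (n-1)` are unbounded; we use the truncations `h + θ_M (u - h)`, with `h` smooth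
with the same character and `θ_M` convex, and let `M → ∞`. So the image is discrete, its kernel
acts on `ℂ^b` with finite linear parts (an average of `T` over a ball of `D` is used), and Poincaré
series with a unitary character generate a power of the canonical bundle. -/

open Matrix MeasureTheory
open scoped ComplexOrder ContDiff

namespace Pool.Agent.Results.MP_e06174_ag.BoundedDomainTimesCbClassC

/-- The space `ℂ^a × ℂ^b`. -/
abbrev Pt (a b : ℕ) := Fin a ⊕ Fin b → ℂ

/-- The complex manifold `D × ℂ^b`. -/
def Dom {a : ℕ} (D : Set (Fin a → ℂ)) (b : ℕ) : Set (Pt a b) := {x | (fun i => x (Sum.inl i)) ∈ D}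

/-- `D` is a bounded domain of `ℂ^a`. -/
structure IsBoundedDomain {a : ℕ} (D : Set (Fin a → ℂ)) : Prop where
  isOpen : IsOpen D
  connected : IsConnected D
  bounded : Bornology.IsBounded D

/-- The complex Jacobian matrix `(∂ f_k / ∂ x_i)` of `f`. -/
noncomputable def Jac {a b : ℕ} (f : Pt a b → Pt a b) (x : Pt a b) :
    Matrix (Fin a ⊕ Fin b) (Fin a ⊕ Fin b) ℂ :=
  Matrix.of fun k i => fderiv ℂ f x (Pi.single i 1) k

/-- The group `Δ` acts on `D × ℂ^b` by holomorphic maps, properly discontinuously and with compact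
quotient. -/
structure IsUniform {a b : ℕ} (D : Set (Fin a → ℂ)) {Δ : Type*} [Group Δ]
    (ρ : Δ → Pt a b → Pt a b) : Prop where
  maps : ∀ δ, ∀ x ∈ Dom D b, ρ δ x ∈ Dom D b
  one : ∀ x ∈ Dom D b, ρ 1 x = x
  mul : ∀ δ ε, ∀ x ∈ Dom D b, ρ (δ * ε) x = ρ δ (ρ ε x)
  hol : ∀ δ, DifferentiableOn ℂ (ρ δ) (Dom D b)
  properlyDiscontinuous : ∀ K ⊆ Dom D b, IsCompact K → {δ : Δ | (ρ δ '' K ∩ K).Nonempty}.Finite
  cocompact : ∃ K ⊆ Dom D b, IsCompact K ∧ ∀ x ∈ Dom D b, ∃ δ, ρ δ x ∈ K

/-- The elements of `Δ0` preserve the subbundle `T_D` of the tangent bundle of `D × ℂ^b` and each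
of the `b` coordinate line subbundles of `ℂ^b`: the entries of their Jacobian matrices vanish
outside of the block of `D` and of the diagonal. -/
def PreservesSplitting {a b : ℕ} (D : Set (Fin a → ℂ)) {Δ : Type*} [Group Δ]
    (ρ : Δ → Pt a b → Pt a b) (Δ0 : Subgroup Δ) : Prop :=
  ∀ δ ∈ Δ0, ∀ x ∈ Dom D b,
    (∀ (j : Fin b) (k : Fin a ⊕ Fin b), k ≠ Sum.inr j → Jac (ρ δ) x k (Sum.inr j) = 0) ∧
    ∀ (i : Fin a) (j : Fin b), Jac (ρ δ) x (Sum.inr j) (Sum.inl i) = 0

/-- The derivative `∂ f / ∂ x_k = (∂ f / ∂ Re x_k - i ∂ f / ∂ Im x_k) / 2`. -/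
noncomputable def partialZ {a b : ℕ} (k : Fin a ⊕ Fin b) (f : Pt a b → ℂ) (x : Pt a b) : ℂ :=
  (fderiv ℝ f x (Pi.single k 1) - Complex.I * fderiv ℝ f x (Pi.single k Complex.I)) / 2

/-- `χ` is a test function on `D × ℂ^b`: smooth with compact support. -/
structure IsTest {a b : ℕ} (D : Set (Fin a → ℂ)) (χ : Pt a b → ℂ) : Prop where
  smooth : ContDiff ℝ ∞ χ
  compact : HasCompactSupport χ
  supp : tsupport χ ⊆ Dom D b

/-- `T = i ∑ T_{jk} d x_j ∧ d \bar x_k` is a current on the quotient `X` of `D × ℂ^b` with the
properties of the push-forward of a Kähler form under a modification: it is positive definite almost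
everywhere and invariant under `Δ`; the coefficients of `T` and of `T ^ (n - 1)` (up to constants the
entries of `T` and of its adjugate) are locally integrable; `T` and `T ^ (n - 1)` are closed:
`∂ T = 0` and `∂ (T ^ (n - 1)) = 0` in the sense of currents (hence `d = 0`, as `T` is real). Every
class `C` manifold carries such a current. -/
structure IsClassCCurrent {a b : ℕ} (D : Set (Fin a → ℂ)) {Δ : Type*} [Group Δ]
    (ρ : Δ → Pt a b → Pt a b) (T : Pt a b → Matrix (Fin a ⊕ Fin b) (Fin a ⊕ Fin b) ℂ) :
    Prop where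
  pos : ∀ᵐ x, x ∈ Dom D b → (T x).PosDef
  invariant : ∀ δ, ∀ᵐ x, x ∈ Dom D b →
    (Jac (ρ δ) x)ᵀ * T (ρ δ x) * (Jac (ρ δ) x).map star = T x
  integrable : ∀ K ⊆ Dom D b, IsCompact K → ∀ i j, IntegrableOn (fun x => T x i j) K
  integrable_power : ∀ K ⊆ Dom D b, IsCompact K →
    ∀ i j, IntegrableOn (fun x => (T x).adjugate i j) K
  closed : ∀ χ, IsTest D χ → ∀ i j k,
    ∫ x, T x j k * partialZ i χ x = ∫ x, T x i k * partialZ j χ x
  closed_power : ∀ χ, IsTest D χ → ∀ k, ∫ x, ∑ j, (T x).adjugate k j * partialZ j χ x = 0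

/-- `F (dx_1 ∧ ... ∧ dx_n)^l` is a section of the `l`-th power of the canonical bundle of the
quotient. -/
def IsPluricanonical {a b : ℕ} (D : Set (Fin a → ℂ)) {Δ : Type*} [Group Δ]
    (ρ : Δ → Pt a b → Pt a b) (l : ℕ) (F : Pt a b → ℂ) : Prop :=
  DifferentiableOn ℂ F (Dom D b) ∧
    ∀ δ, ∀ x ∈ Dom D b, F (ρ δ x) * (Jac (ρ δ) x).det ^ l = F x

/-- **Nonnegativity of the Kodaira dimension.** Let `D` be a bounded domain of `ℂ^a`. If the compact
quotient `X` of `D × ℂ^b` by `Δ` carries a current with the properties of `IsClassCCurrent`, in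
particular if `X` is in class `C`, and if the splitting of the tangent bundle into `T_D` and the
coordinate lines of `ℂ^b` descends to a finite etale cover of `X`, then the canonical bundle of `X` is
semiample: for some `l ≥ 1` its `l`-th power is globally generated. In particular `κ(X) ≥ 0`. -/
theorem result {a b : ℕ} {D : Set (Fin a → ℂ)} (hD : IsBoundedDomain D) {Δ : Type*} [Group Δ]
    (ρ : Δ → Pt a b → Pt a b) (hρ : IsUniform D ρ) (Δ0 : Subgroup Δ) (hfin : Δ0.FiniteIndex)
    (hsplit : PreservesSplitting D ρ Δ0)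
    (T : Pt a b → Matrix (Fin a ⊕ Fin b) (Fin a ⊕ Fin b) ℂ) (hT : IsClassCCurrent D ρ T) :
    ∃ l : ℕ, 1 ≤ l ∧ ∀ x ∈ Dom D b, ∃ F, IsPluricanonical D ρ l F ∧ F x ≠ 0 := by
  obtain ⟨R, hR⟩ := hD.bounded.exists_norm_le
  have h1 : H906.BD.HolAct (H906.BD.Tot D (Fin b)) ρ := ⟨hρ.maps, hρ.one, hρ.mul, hρ.hol⟩
  have h2 : H906.BD.CForm (H906.BD.Tot D (Fin b)) T :=
    ⟨hT.integrable, hT.integrable_power, hT.pos, fun χ h h' h'' => hT.closed χ ⟨h, h', h''⟩,
      fun χ h h' h'' => hT.closed_power χ ⟨h, h', h''⟩⟩
  have h3 : H906.BD.InvAE (H906.BD.Tot D (Fin b)) ρ T := hT.invariant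
  obtain ⟨l, hl, h4⟩ := H906.BD.abundance_current hD.isOpen hD.connected.isPreconnected
    hD.connected.nonempty hR h1 hρ.properlyDiscontinuous hρ.cocompact hfin
    (fun δ hδ x hx j i => (hsplit δ hδ x hx).2 i j)
    (fun δ hδ x hx j j' hjj => (hsplit δ hδ x hx).1 j' (Sum.inr j) fun h => hjj (Sum.inr_injective h))
    h2 h3
  exact ⟨l, hl, fun x hx => (h4 x hx).imp fun F hF => ⟨⟨hF.1, hF.2.1⟩, hF.2.2⟩⟩

end Pool.Agent.Results.MP_e06174_ag.BoundedDomainTimesCbClassC
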