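import Pool.Agent.H897.JJ

/-!
MP_e06174_ag, Q1, for projective manifolds and pairs: holomorphic tensors on varieties with
`α`-semistable (orbifold) tangent sheaf, in particular on the varieties which are neither uniruled
nor of general type, give effective divisors in the classes generated by the determinants of the
Jordan-Hölder factors of the cotangent sheaf; a nonvanishing theorem for the canonical divisor.

**The pair.** `NormalModel y` (`Pool/Agent/Y172/Defs.lean`): `y` is the generic point, in
homogeneous coordinates, of a normal projective variety `X` with function field `K`,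
`n = dim X`. `Boundary y Δ`: `Δ` is a `ℚ`-divisor with coefficients `Δ P` between `0` and `1` at
the prime divisors `P` (`IsPrimeDivisor y P`); the case of the problem is `Δ = 0`.
`IsSection y n d D ω`: `ω` is a section of `d K_X + D`.

**Distributions** (`RF.lean`, `RG.lean`, `VE.lean`). A distribution on `X` is a `K`-subspace `F` of
the space of the rational vector fields `Derivation ℂ K K`; it is the generic fibre of a saturated
subsheaf of the orbifold tangent sheaf `T (X, Δ)`, for `Δ = 0` of `T_X`. `WedgeOrd n δ P D e`: `e`
is the order along `P` of `D 0 ∧ ⋯ ∧ D (r - 1)` as a rational section of the exterior power of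
`T (X, Δ)`. `MovableClass y α`: `α` is a linear function on the divisors which is nonnegative on the
prime divisors and `0` on principal divisors. `HasDeg y α e s`: the divisor `∑ e P • P` has the
degree `s`. `LogDegree y n Δ α c`: `(K_X + Δ) . α = c`. `SubDeg y n Δ α F d`: the degree of `F` is
`d`. `StablePiece y n Δ α W V`: the sheaf `V / W` is `α`-stable.
`SemistableTangent y n Δ α c` (`JI.lean`): `T (X, Δ)` is `α`-semistable, that is the slopes of the
distributions are at most `- c / n`.

Let `X` be a projective manifold which is not uniruled and not of general type, `Δ = 0`. Then `K_X`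
is pseudo-effective and not big, so there is a movable class `α ≠ 0` with `K_X . α = 0`
(Boucksom-Demailly-Păun-Peternell), and `T_X` is `α`-semistable by Campana-Păun. So the second
part of the theorem applies to all these varieties.

**Tensors.** `MixedTensorAt n δ ℓ P T` (`JH.lean`), `TensorAt n δ ℓ P T` (`JJ.lean`): the
multilinear form `T` on a product of distributions, respectively on the `m`-th power of the space of
the rational vector fields, is regular along `P` with values in a divisor `L` with the coefficient
`ℓ`: the order of `T D` is at least the sum of the orders of the vector fields `D s`, minus `ℓ`. For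
`Δ = 0`, `L = 0` these `T` are the sections of the `m`-th tensor power of `Ω_X` over a smooth
`X`. `HasType V T J` (`JJ.lean`): `T` induces a nonzero form on the product of the
`V (J s + 1) / V (J s)`.

`MixedEff y n Δ W V J L` (`JH.lean`): the divisor class
`L - ∑ s, det (V (J s) / W (J s)) / r (J s)`, `r i` the rank of `V i / W i`, is `ℚ`-effective.

**Theorem.** 1. Let `V i / W i`, `i < k`, be `α`-stable subquotients of `T (X, Δ)` of the ranks
`r i` and the slopes `μ i` (not necessarily equal, and not necessarily the pieces of a filtration),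
`J : Fin m → Fin k`, and `T` a nonzero section of `(⨂ s, (V (J s) / W (J s)) ^ *) ⊗ L` with
`L . α ≤ ∑ s, μ (J s)`. Then the divisor class `L - ∑ s, det (V (J s) / W (J s)) / r (J s)`
is `ℚ`-effective.

2. Let `T (X, Δ)` be `α`-semistable and `(K_X + Δ) . α = c`. Then there is a filtration
`0 = V 0 ⊂ V 1 ⊂ ⋯ ⊂ V k = T (X, Δ)` by distributions with `α`-stable graded pieces
`V (i + 1) / V i` of the slope `- c / n`, and for every nonzero section `T` of the `m`-th tensor
power of the dual of `T (X, Δ)` with values in `L`, `n L . α ≤ - m c` (for instance `c ≤ 0` and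
`L = 0`):
(a) there is a type `J : Fin m → Fin k` such that `T` induces a nonzero section of
`(⨂ s, (V (J s + 1) / V (J s)) ^ *) ⊗ L`; and for every such `J` the divisor class
`L - ∑ i, (e i / r i) det (V (i + 1) / V i)` is `ℚ`-effective, where `e i` is the number of the
`s` with `J s = i` and `r i` the rank of `V (i + 1) / V i`. If `T (X, Δ)` is stable, then this is
the class `L + (m / n) (K_X + Δ)`.
(b) Let `T a` be finitely many such tensors with the types `J a`, with values in `L a`, and
`u a ≥ 0`, `A` natural numbers with `∑ a, u a * e i (J a) = A * r i` for all `i`. Then there is a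
nonzero section of `M (A (K_X + Δ) + ∑ a, u a L a)` for some `M ≥ 1`. In particular
`κ (X, Δ) ≥ 0` if `L a = 0` and `A ≥ 1`.

**Proof.** The tensor is a form on the direct sum of the `V i / W i`. Multiply a power of it with
powers of the determinants of the blocks, such that all blocks have the same weight. By the
uniqueness of Kempf's optimal flag for this product, the flag is invariant under the scalings of the
blocks, so it is a direct sum of flags of the blocks. With the normalisation of the degrees by the
determinants of the blocks all members of the flag have nonpositive degrees by the stability, and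
the degree of the semi-invariant of the leading part (Ramanan-Ramanathan) shows that all members are
sums of blocks, and then the flag is trivial because the product has the same weight on all blocks.
The invariants of the product give the effective divisor.
-/

set_option autoImplicit false

open FF Pool.Agent.W602.GT Pool.Agent.Y172 Pool.Agent.NH31 Pool.Agent.H897

namespace Pool.Agent.Results.MP_e06174_ag.JordanHoelderTensors

/-- **Tensors and Jordan-Hölder filtrations of the tangent sheaf.** -/
theorem result {K : Type} [Field K] [Algebra ℂ K] {N n : ℕ} {y : Fin (N + 1) → K}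
    (hy : NormalModel y) (hn : Algebra.trdeg ℂ K = n) (hn1 : 1 ≤ n) {Δ : Place ℂ K → ℚ}
    (hΔ : Boundary y Δ) {α : Place ℂ K → ℝ} (hα : MovableClass y α) :
    (∀ (k m : ℕ) (W V : Fin k → Submodule K (Derivation ℂ K K)) (J : Fin m → Fin k)
      (T : MultilinearMap K (fun s : Fin m => V (J s)) K) (L : Place ℂ K → ℚ) (lam : ℝ), 1 ≤ m →
      (∀ i, W i < V i ∧ StablePiece y n Δ α (W i) (V i)) → T ≠ 0 →
      (∀ (D : (s : Fin m) → V (J s)), (∃ s, (D s : Derivation ℂ K K) ∈ W (J s)) → T D = 0) →
      (∀ P, IsPrimeDivisor y P → MixedTensorAt n (Δ P) (L P) P T) →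
      HasDeg y α (fun P => L P) lam →
      (∀ dW dV : Fin k → ℝ, (∀ i, SubDeg y n Δ α (W i) (dW i)) →
        (∀ i, SubDeg y n Δ α (V i) (dV i)) → lam ≤ ∑ s, (dV (J s) - dW (J s)) /
          ((Module.finrank K (V (J s)) : ℝ) - Module.finrank K (W (J s)))) →
      MixedEff y n Δ W V J L) ∧
    ∀ c : ℝ, LogDegree y n Δ α c → SemistableTangent y n Δ α c →
      ∃ (k : ℕ) (V : ℕ → Submodule K (Derivation ℂ K K)), V 0 = ⊥ ∧ V k = ⊤ ∧
        (∀ i, i < k → V i < V (i + 1) ∧ StablePiece y n Δ α (V i) (V (i + 1))) ∧
        (∀ i, i ≤ k → ∀ d, SubDeg y n Δ α (V i) d → n * d = -(Module.finrank K (V i) * c)) ∧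
        (∀ (m : ℕ) (T : MultilinearMap K (fun _ : Fin m => Derivation ℂ K K) K)
          (L : Place ℂ K → ℚ) (lam : ℝ), 1 ≤ m → T ≠ 0 →
          (∀ P, IsPrimeDivisor y P → TensorAt n (Δ P) (L P) P T) →
          HasDeg y α (fun P => L P) lam → n * lam ≤ -(m * c) →
            (∃ J : Fin m → Fin k, HasType V T J) ∧ ∀ J : Fin m → Fin k, HasType V T J →
              MixedEff y n Δ (fun i : Fin k => V i) (fun i : Fin k => V (i + 1)) J L) ∧
        ∀ (p : ℕ) (m : Fin p → ℕ)
          (T : (a : Fin p) → MultilinearMap K (fun _ : Fin (m a) => Derivation ℂ K K) K)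
          (L : Fin p → Place ℂ K → ℚ) (lam : Fin p → ℝ) (J : (a : Fin p) → Fin (m a) → Fin k)
          (A : ℕ) (u : Fin p → ℕ),
          (∀ a, 1 ≤ m a ∧ T a ≠ 0 ∧
            (∀ P, IsPrimeDivisor y P → TensorAt n (Δ P) (L a P) P (T a)) ∧
            HasDeg y α (fun P => L a P) (lam a) ∧ n * lam a ≤ -(m a * c) ∧ HasType V (T a) (J a)) →
          (∀ i : Fin k, ∑ a, u a * (Finset.univ.filter fun s => J a s = i).card +
            A * Module.finrank K (V i) = A * Module.finrank K (V (i + 1))) →
          ∃ (M : ℕ) (ω : (Fin n → Derivation ℂ K K) → K), 1 ≤ M ∧ ω ≠ 0 ∧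
            IsSection y n (M * A) (M • (fun P => A * Δ P + ∑ a, u a * L a P)) ω := by
  refine ⟨fun k m W V J T L lam hm hWV hT hTW hTO hL hdeg => mixed_eff hy hn hΔ hα
    (fun i => (hWV i).1) (fun i => (hWV i).2) hm hT hTW hL hdeg hTO, fun c hc hss => ?_⟩
  obtain ⟨k, V, hV0, hVk, hV, hVd⟩ := jh_exists hy hn hn1 hΔ hα hc hss
  have hk : 1 ≤ k := by
    rcases Nat.eq_zero_or_pos k with h | h
    · exfalso
      subst h
      obtain ⟨hfin, hrk⟩ := fin_der hy hn
      have h1 : (⊥ : Submodule K (Derivation ℂ K K)) = ⊤ := hV0.symm.trans hVk
      have h2 : Module.finrank K (⊤ : Submodule K (Derivation ℂ K K)) = 0 := by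
        rw [← h1]
        exact finrank_bot K _
      rw [finrank_top, hrk] at h2
      omega
    · exact h
  refine ⟨k, V, hV0, hVk, hV, hVd, fun m T L lam hm hT hTO hL hlam =>
    ⟨exists_type hV0 hVk hk hT, fun J hJ =>
      type_eff hy hn hn1 hΔ hα hV hVd hm hL hlam hTO hJ⟩,
    fun p m T L lam J A u hT hA => mixed_sec hy hn hΔ hV0 hVk (fun i hi => (hV i hi).1)
      (fun a => ?_) hA⟩
  obtain ⟨h1, -, h3, h4, h5, h6⟩ := hT a
  exact type_eff hy hn hn1 hΔ hα hV hVd h1 h4 h5 h3 h6

end Pool.Agent.Results.MP_e06174_ag.JordanHoelderTensors
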