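import Pool.Agent.H908.SE7

/-!
# Quotients of products: reduction to the subgroups which contain the junior elements

Let `V = W 1 × ... × W r` be a product of arbitrary projective varieties over the complex numbers,
`G` a finite group which acts on `V` (birationally) and permutes the factors, and `H` any subgroup
of `G` which contains the junior elements of `G`. Let `X` and `Y` be projective manifolds birational
to `V / G` and `V / H`. Then the regular pluricanonical forms on `X` are the pluricanonical forms
whose pull-backs to `Y` are regular, `κ(X) = κ(Y)`, `K_X` is pseudo-effective if and only if `K_Y` is,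
and Question 1 for `Y` implies Question 1 for `X`.

Junior elements: let `w` be a prime divisor over `V`, `e` its ramification index over `V / G`, and let
`g` in `G` generate the inertia group of `w` (`g` fixes `w` pointwise and has order `e`). Let `c i` be
the ramification index of `w` over the factor `W i` (`0` if `w` dominates `W i`). Then `g` is junior at
`w` if it moves no factor of dimension at least two and

  `∑ c i / e + ∑ d (l - 1) / 2 < 1`,

where the second sum is over the cycles of the permutation of the factors, of length `l`, on factors
of dimension `d`. If the factors are curves then this is the condition of Reid and Tai. For example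
`H` may be the group of the elements of `G` which map all the factors to themselves, if all factors
have dimension at least two, or more generally if there are no elements in `G` which exchange two
curves; if `W` has dimension at least two and `Γ` is a finite group of automorphisms of `W`, then the
ordered and the unordered `n`-tuples of points of `W` modulo `Γ`, `W ^ n / Γ` and
`W ^ n / (Γ × S n)`, are birational to manifolds with the same Kodaira dimension.

Proof. By the theorem of Künneth a section of `m K_V + j A` is a sum of products of sections of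
`m K + j A i` on the factors (for arbitrary varieties, in terms of all divisors over them). Products
vanish along the divisor `w` fixed by an element which is not junior to the order which is needed to
be regular along the image of `w` in `V / G`. Along the other divisors `V / H → V / G` is unramified.
So norms of sections on `Y` give sections on `X`, and so do traces, with a divisor `A` which does not
depend on `m`. The varieties `W i` need not be smooth, and `G` need not act by morphisms.
-/

set_option autoImplicit false
set_option linter.overlappingInstances false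

open FF IntermediateField
open Pool.Agent.W619.PQ (KodairaNeg IsUniruled IsDivisorial Inert IsPluriForm RegularAt)
open Pool.Agent.W619.TW (IsPsef)
open Pool.Agent.W619.Y (KodTr)
open Pool.Agent.K1H6.PQ (IsPermuted age)

namespace Pool.Agent.Results.MP_e06174_ag.JuniorSubgroups

section

variable {L : Type} [Field L] [Algebra ℂ L] {r : ℕ}

/-- The ramification index of the place `w` over the subfield `M`: the smallest positive order along
`w` of a function in `M`, and `0` if there is none. -/
noncomputable def index (w : Place ℂ L) (M : IntermediateField ℂ L) : ℕ :=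
  sInf {c : ℕ | 0 < c ∧ ∃ f ∈ M, w.ord f = c}

/-- The sum over the cycles of the permutation `π`, of length `l` on factors of dimension `d`, of
`d (l - 1) / 2`. (In the sum below every cycle of length `l` is counted `l` times with the factor
`1 / l`.) -/
noncomputable def permutationAge (a : Fin r → ℕ) (π : Equiv.Perm (Fin r)) : ℝ :=
  ∑ i, (1 / (Function.minimalPeriod π i : ℝ)) *
    (a i * ((Function.minimalPeriod π i : ℝ) - 1) / 2)

/-- The subgroup `H` contains the junior elements of `G`: let `w` be a prime divisor over the product
and let `g` in `G` but not in `H` generate the inertia group of `w`, that is `g` fixes `w` pointwise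
(`Inert`) and its order `e` is the ramification index of `w` over the quotient by `G`. Then `g` moves
a factor of dimension at least two, or `e ≤ ∑ c i + e * permutationAge`, with the ramification indices
`c i` of `w` over the factors. -/
def ContainsJunior (M : Fin r → IntermediateField ℂ L) (a : Fin r → ℕ)
    (G : Subgroup (L ≃ₐ[ℂ] L)) (σ : G →* Equiv.Perm (Fin r)) (H : Subgroup (L ≃ₐ[ℂ] L)) : Prop :=
  ∀ g : G, (g : L ≃ₐ[ℂ] L) ∉ H → ∀ w : Place ℂ L, IsDivisorial w (∑ i, a i) →
    Inert w (g : L ≃ₐ[ℂ] L) → orderOf (g : L ≃ₐ[ℂ] L) = index w (fixedField G) →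
    (∃ i, σ g i ≠ i ∧ 2 ≤ a i) ∨
      (orderOf (g : L ≃ₐ[ℂ] L) : ℝ) ≤ ∑ i, (index w (M i) : ℝ) +
        orderOf (g : L ≃ₐ[ℂ] L) * permutationAge a (σ g)

/-- It is sufficient that the age (the sum over the cycles of `d (l - 1) / 2`, plus `1 / t` if `g ^ l`
acts on the factors of the cycle with order `t ≥ 2`) of the elements of `G` which are not in `H` is at
least one, if they fix pointwise a divisor and do not move a factor of dimension at least two. -/
theorem containsJunior_of_age (M : Fin r → IntermediateField ℂ L) (a : Fin r → ℕ)
    (G : Subgroup (L ≃ₐ[ℂ] L)) [Finite G] (σ : G →* Equiv.Perm (Fin r)) (h : IsPermuted M a G σ)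
    (H : Subgroup (L ≃ₐ[ℂ] L))
    (hage : ∀ g : G, (g : L ≃ₐ[ℂ] L) ∉ H → (∃ w : Place ℂ L, IsDivisorial w (∑ i, a i) ∧
      Inert w (g : L ≃ₐ[ℂ] L)) → (∃ i, σ g i ≠ i ∧ 2 ≤ a i) ∨
      1 ≤ age M a (σ g) (fun _ _ => 0) (g : L ≃ₐ[ℂ] L)) : ContainsJunior M a G σ H := by
  intro g hg w hw hI _
  rcases hage g hg ⟨w, hw, hI⟩ with h1 | h1
  · exact Or.inl h1
  · exact Or.inr (Pool.Agent.H908.SE.index_of_age h g hI h1)

/-- The inclusion of the fields of functions of the quotients by `G` and by the subgroup `H`. -/
noncomputable def incl {G H : Subgroup (L ≃ₐ[ℂ] L)} (hHG : H ≤ G) : fixedField G →ₐ[ℂ] fixedField H :=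
  inclusion (Pool.Agent.H908.SE.fixed_mono hHG)

/-- `ω'` is the pull-back of `ω`: if the vector fields `D'` extend the vector fields `D` then the value
of `ω'` on `D'` is the value of `ω` on `D`. -/
def IsPullback {G H : Subgroup (L ≃ₐ[ℂ] L)} (hHG : H ≤ G) {n : ℕ}
    (ω : (Fin n → Derivation ℂ (fixedField G) (fixedField G)) → fixedField G)
    (ω' : (Fin n → Derivation ℂ (fixedField H) (fixedField H)) → fixedField H) : Prop :=
  ∀ (D : Fin n → Derivation ℂ (fixedField G) (fixedField G))
    (D' : Fin n → Derivation ℂ (fixedField H) (fixedField H)),
    (∀ j f, D' j (incl hHG f) = incl hHG (D j f)) → ω' D' = incl hHG (ω D)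

end

/-- **Reduction to the junior elements.** Let `M i` (`i < r`) be the fields of functions of arbitrary
projective varieties `W i` of dimensions `a i`, and let `L` be the field of functions of their product.
Let the finite group `G` act on the product and permute the factors, as `σ g` (`IsPermuted`), and let
`H` be a subgroup of `G` which contains the junior elements of `G`. Let `X` and `Y` be projective
manifolds birational to the quotients of the product by `G` and by `H`, with the fields of functions
`fixedField G` and `fixedField H`, and let `n = ∑ a i` be their dimension.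

1. A rational `m`-fold pluricanonical form on `X` is regular if and only if its pull-back to `Y` is
   regular.
2. `κ(X) = κ(Y)`: for all `A`, `κ(X) ≥ A` if and only if `κ(Y) ≥ A`, and `κ(X) = -∞` if and only if
   `κ(Y) = -∞`.
3. `K_X` is pseudo-effective if and only if `K_Y` is pseudo-effective.
4. Question 1, in the form (`K` pseudo-effective implies `κ ≥ 0`), holds for `X` if and only if it
   holds for `Y`; and if `Y` is uniruled or `κ(Y) ≥ 0`, then `X` is uniruled or `κ(X) ≥ 0`. -/
theorem result {L : Type} [Field L] [Algebra ℂ L] {r : ℕ} (M : Fin r → IntermediateField ℂ L)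
    (a : Fin r → ℕ) (G : Subgroup (L ≃ₐ[ℂ] L)) [Finite G] (σ : G →* Equiv.Perm (Fin r))
    (h : IsPermuted M a G σ) (H : Subgroup (L ≃ₐ[ℂ] L)) (hHG : H ≤ G)
    (hH : ContainsJunior M a G σ H) :
    (∀ (m : ℕ) (ω : (Fin (∑ i, a i) → Derivation ℂ (fixedField G) (fixedField G)) → fixedField G)
      (ω' : (Fin (∑ i, a i) → Derivation ℂ (fixedField H) (fixedField H)) → fixedField H),
      IsPluriForm ℂ (fixedField G) (∑ i, a i) m ω → IsPluriForm ℂ (fixedField H) (∑ i, a i) m ω' →
      IsPullback hHG ω ω' →
      ((∀ v : Place ℂ (fixedField G), IsDivisorial v (∑ i, a i) → RegularAt v (∑ i, a i) ω) ↔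
        ∀ v : Place ℂ (fixedField H), IsDivisorial v (∑ i, a i) → RegularAt v (∑ i, a i) ω')) ∧
    ((∀ A, KodTr ℂ (fixedField G) (∑ i, a i) A ↔ KodTr ℂ (fixedField H) (∑ i, a i) A) ∧
      (KodairaNeg ℂ (fixedField G) (∑ i, a i) ↔ KodairaNeg ℂ (fixedField H) (∑ i, a i))) ∧
    (IsPsef ℂ (fixedField G) (∑ i, a i) (fun _ => False) ↔
      IsPsef ℂ (fixedField H) (∑ i, a i) (fun _ => False)) ∧
    (((IsPsef ℂ (fixedField G) (∑ i, a i) (fun _ => False) →
        ¬ KodairaNeg ℂ (fixedField G) (∑ i, a i)) ↔
      (IsPsef ℂ (fixedField H) (∑ i, a i) (fun _ => False) →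
        ¬ KodairaNeg ℂ (fixedField H) (∑ i, a i))) ∧
      ((KodairaNeg ℂ (fixedField H) (∑ i, a i) → IsUniruled ℂ (fixedField H) (∑ i, a i)) →
        KodairaNeg ℂ (fixedField G) (∑ i, a i) → IsUniruled ℂ (fixedField G) (∑ i, a i))) := by
  have hS : Pool.Agent.H908.SE.Senior M a G σ H := Pool.Agent.H908.SE.senior_of h hH
  obtain ⟨h1, h2, -, -⟩ := Pool.Agent.H908.SE.main_iff h hHG hS
  have h3 := Pool.Agent.H908.SE.neg_iff h hHG hS
  refine ⟨fun m ω ω' hω hω' hp => Pool.Agent.H908.SE.regular_iff h hHG hS hω hω' hp, ⟨h1, h3⟩, h2,
    ?_, fun h4 h5 => Pool.Agent.H908.SE.uniruled_down hHG (h4 (h3.1 h5))⟩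
  rw [h2, h3]

end Pool.Agent.Results.MP_e06174_ag.JuniorSubgroups
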