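import Pool.Agent.H908.SC4

/-!
# Quotients of products by groups which permute the factors, with reflections

Let `V = W 1 × ... × W r` be a product of projective varieties over the complex numbers and `G` a
finite group which acts on `V` and permutes the factors. If the age of all elements of `G` is at
least one then pluricanonical forms of `V` descend to the quotient, and `κ(V / G) = -∞` if and only
if `κ(W i) = -∞` for some `i`. This fails if `G` contains reflections. The reflections of `V` which
move a factor are the *transpositions*: they exchange two curves `W i`, `W j` and are trivial on all
the other factors. For example, the symmetric product of `n` curves of genus `g` is the quotient by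
the group generated by the transpositions, and it is uniruled for `n > g`.

The theorem of this file allows transpositions. The *block* of a curve `W i` consists of `W i` and
the curves `W j` for which `G` contains the transposition of `W i` and `W j`. The group `G` is
*admissible* if two different elements of `G` are not transpositions of the same two curves and all
the other elements `g ≠ 1` of `G` which fix pointwise a prime divisor over `V` have age at least one
or move a factor of dimension at least two. All groups `G` of permutations of the factors (elements
which map a factor to itself are trivial on it, so that `V` is a product of powers and `G` permutes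
the coordinates) are admissible.

The theorem: if the factors of dimension at least two satisfy `κ = -∞ ⇒ uniruled` then so does the
resolution `X` of `V / G`, and `κ(X) = -∞`, `K_X` is not pseudo-effective, `X` is uniruled, and

* some factor of dimension at least two is uniruled, or some curve has a block with more elements
  than the genus of the curve

are equivalent.

Proof. Forms: for a block of `b` curves isomorphic to `C` of genus `≥ b` the form
`det (f_j (x_i)) dx_1 ∧ ... ∧ dx_b`, for independent regular differentials `f_j dx` of `C`, is
invariant under the transpositions, it vanishes on the diagonals, and hence it descends to a form on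
the quotient which is regular along the branch divisor; the other elements have age at least one.
Uniruledness: the sum of the `b > g` generic points `x_i` of `C`, as a divisor on the curve `C` over
the algebraic closure of the field of functions, moves in a pencil by the theorem of Riemann and
Roch; a member of the pencil which is not generic is defined over a field `M` of transcendence
degree one less, and the elements of the field of the quotient are fixed by the automorphisms over
`M (t)`, as these permute the members of the pencil by elements of `G`, so that the field of the
quotient is contained in `M (t)`.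
-/

set_option autoImplicit false
set_option linter.overlappingInstances false

open FF IntermediateField
open Pool.Agent.W619.PQ (KodairaNeg IsUniruled IsDivisorial Inert)
open Pool.Agent.W619.TW (IsPsef)
open Pool.Agent.K1H6.PQ (IsPermuted age)
open Pool.Agent.Helper11K9.OD (regularForms)

namespace Pool.Agent.Results.MP_e06174_ag.ReflectionQuotients

section

variable {L : Type} [Field L] [Algebra ℂ L] {r : ℕ}

/-- `g` is the transposition of the curves `i ≠ j`: the factors `i` and `j` are curves, `g`
exchanges them, and `g` is trivial on all the other factors. (`M l` is the field of functions of the
factor `l`, and `a l` is its dimension.) -/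
def IsTransposition (M : Fin r → IntermediateField ℂ L) (a : Fin r → ℕ) (g : L ≃ₐ[ℂ] L)
    (i j : Fin r) : Prop :=
  i ≠ j ∧ a i = 1 ∧ a j = 1 ∧ (∀ z ∈ M i, g z ∈ M j) ∧ (∀ z ∈ M j, g z ∈ M i) ∧
    ∀ l, l ≠ i → l ≠ j → ∀ z ∈ M l, g z = z

/-- The block of the factor `i`: it consists of `i` and of the curves `j` such that `G` contains a
transposition of `i` and `j`. -/
def block (M : Fin r → IntermediateField ℂ L) (a : Fin r → ℕ) (G : Subgroup (L ≃ₐ[ℂ] L))
    (i : Fin r) : Set (Fin r) :=
  {j | j = i ∨ ∃ g ∈ G, IsTransposition M a g i j}

/-- The genus of the curve with the field of functions `F`: the dimension of the space of regular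
differential forms. -/
noncomputable def genus (F : Type) [Field F] [Algebra ℂ F] : ℕ :=
  Module.finrank ℂ (regularForms F)

/-- The definition of `regularForms`. -/
theorem mem_regularForms {F : Type} [Field F] [Algebra ℂ F] {ω : Derivation ℂ F F →ₗ[F] F} :
    ω ∈ regularForms F ↔ ∀ (P : Place ℂ F) (δ : Derivation ℂ F F),
      (∀ f, P.Reg f → P.Reg (δ f)) → P.Reg (ω δ) := Iff.rfl

/-- `G` consists of permutations of the factors: an element which maps a factor to itself is trivial
on it. -/
def IsPermutationGroup (M : Fin r → IntermediateField ℂ L) (G : Subgroup (L ≃ₐ[ℂ] L))
    (σ : G →* Equiv.Perm (Fin r)) : Prop :=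
  ∀ (g : G) i, σ g i = i → ∀ z ∈ M i, (g : L ≃ₐ[ℂ] L) z = z

/-- The condition on the group: for `i ≠ j` it contains at most one transposition of `i` and `j`, and
every other element `g ≠ 1` of the group, if it fixes pointwise a prime divisor `w` over the product
(`Inert w g`), moves a factor of dimension at least two or has age at least one. Here
`age M a (σ g) (fun _ _ => 0) g` is the sum over the cycles of `σ g`, say of length `l` on factors of
dimension `d`, of `d (l - 1) / 2`, plus `1 / t` if `g ^ l` acts on the factors of the cycle with
order `t ≥ 2`. -/
structure IsAdmissible (M : Fin r → IntermediateField ℂ L) (a : Fin r → ℕ)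
    (G : Subgroup (L ≃ₐ[ℂ] L)) (σ : G →* Equiv.Perm (Fin r)) : Prop where
  unique : ∀ g ∈ G, ∀ g' ∈ G, ∀ i j, IsTransposition M a g i j → IsTransposition M a g' i j → g = g'
  age : ∀ g : G, g ≠ 1 → (∃ w : Place ℂ L, IsDivisorial w (∑ i, a i) ∧
      Inert w (g : L ≃ₐ[ℂ] L)) →
    (∃ i j, IsTransposition M a (g : L ≃ₐ[ℂ] L) i j) ∨ (∃ i, σ g i ≠ i ∧ 2 ≤ a i) ∨
    1 ≤ age M a (σ g) (fun _ _ => 0) (g : L ≃ₐ[ℂ] L)

end

/-- **Quotients of products with reflections.** Let `M i` (`i < r`) be the fields of functions of
projective varieties `W i` of dimensions `a i`, and let `L` be the field of functions of their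
product. Let the finite group `G` act on the product and permute the factors, as `σ g`
(`IsPermuted`), and let `X` be a projective manifold birational to the quotient of the product by
`G`; its field of functions is `fixedField G`. Assume that `G` consists of permutations of the
factors, or, more generally, that `G` is admissible, and that the `W i` of dimension at least two
with `κ(W i) = -∞` are uniruled. Then `κ(X) = -∞`, `K_X` is not pseudo-effective, `X` is uniruled,
and (some `W i` of dimension at least two is uniruled, or the block of some curve `W i` has more
elements than the genus of `W i`) are equivalent. -/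
theorem result {L : Type} [Field L] [Algebra ℂ L] {r : ℕ} (M : Fin r → IntermediateField ℂ L)
    (a : Fin r → ℕ) (G : Subgroup (L ≃ₐ[ℂ] L)) [Finite G] (σ : G →* Equiv.Perm (Fin r))
    (h : IsPermuted M a G σ) (hG : IsPermutationGroup M G σ ∨ IsAdmissible M a G σ)
    (hQ : ∀ i, 2 ≤ a i → KodairaNeg ℂ (M i) (a i) → IsUniruled ℂ (M i) (a i)) :
    [KodairaNeg ℂ (fixedField G) (∑ i, a i),
      ¬ IsPsef ℂ (fixedField G) (∑ i, a i) (fun _ => False),
      IsUniruled ℂ (fixedField G) (∑ i, a i),
      (∃ i, 2 ≤ a i ∧ IsUniruled ℂ (M i) (a i)) ∨
        ∃ i, a i = 1 ∧ genus (M i) < (block M a G i).ncard].TFAE := by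
  have hG' : Pool.Agent.H908.SB.Admissible M a G σ := by
    rcases hG with hp | hG
    · exact Pool.Agent.H908.SB.pure_admissible h hp
    · exact ⟨hG.unique, hG.age⟩
  exact Pool.Agent.H908.SB.main h hG' hQ

end Pool.Agent.Results.MP_e06174_ag.ReflectionQuotients
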